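import Pool.Agent.T2h8.GEO.Red

/-!
# MP_f934c9_lc: isomorphism of geodetic graphs is GI-complete

The graph isomorphism problem for arbitrary finite graphs reduces, by a polynomial-time many-one
reduction (a Turing machine in the sense of Mathlib, working on bit strings), to the isomorphism
problem for geodetic graphs of diameter at most seven.  Consequently there is a polynomial-time
algorithm which decides isomorphism of geodetic graphs if and only if there is one for arbitrary
graphs.

Construction.  Let `X` be a graph on `{0, …, n - 1}`.  Replace every edge `i j` of the complete graph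
on `{0, …, n - 1}` by a path of length three `(i, i), (i, j), (j, i), (j, j)`; the result is
geodetic.  Attach two pendant vertices to every branch vertex `(i, i)`, and one pendant vertex to
`(i, j)` and to `(j, i)` if `i` and `j` are adjacent in `X`.  The graph remains geodetic, its
diameter is at most seven, and it determines `X` up to isomorphism: the branch vertices are the
vertices with two pendant neighbours, and `(i, j)` is the neighbour of `(i, i)` on the shortest path
to `(j, j)`.
-/

set_option autoImplicit false

namespace Pool.Agent.Results.MP_f934c9_lc.GIComplete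

open Pool.Agent.NPC Pool.Agent.NPC.R671 Pool.Agent.T2h8.GEO

/-- **The isomorphism problem for geodetic graphs is GI-complete.**

* There is a polynomial-time computable function `f` on bit strings such that, for *every* bit
  string `x`, the value `f x` codes a pair of adjacency matrices of geodetic graphs `X'`, `Y'` of
  diameter at most `7`, and `x` is a yes-instance of the graph isomorphism problem for arbitrary
  finite graphs iff `X'` and `Y'` are isomorphic.
* The graph isomorphism problem is polynomial-time many-one reducible to the set of the pairs of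
  adjacency matrices of isomorphic geodetic graphs.
* The following are equivalent: there is a polynomial-time algorithm which decides isomorphism of
  any two given geodetic graphs (Q1); there is a polynomial-time algorithm which does this if both
  graphs have diameter at most `7`; the graph isomorphism problem is in `P`. -/
theorem result :
    (∃ f : List Bool → List Bool, PolyTime f ∧ ∀ x : List Bool,
      ∃ (N M : ℕ) (X' : SimpleGraph (Fin N)) (Y' : SimpleGraph (Fin M)),
        f x = bits (adjMatrix X', adjMatrix Y') ∧ IsGeodetic X' ∧ IsGeodetic Y' ∧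
          (∀ u v, X'.dist u v ≤ 7) ∧ (∀ u v, Y'.dist u v ≤ 7) ∧
          (x ∈ lang GraphIso ↔ Nonempty (X' ≃g Y'))) ∧
    Reduces (lang GraphIso) (lang GeodeticIso) ∧
    List.TFAE [
      ∃ A : List Bool → List Bool, PolyTime A ∧
        ∀ (N M : ℕ) (X : SimpleGraph (Fin N)) (Y : SimpleGraph (Fin M)),
          IsGeodetic X → IsGeodetic Y →
            (A (bits (adjMatrix X, adjMatrix Y)) = [true] ↔ Nonempty (X ≃g Y)),
      ∃ A : List Bool → List Bool, PolyTime A ∧
        ∀ (N M : ℕ) (X : SimpleGraph (Fin N)) (Y : SimpleGraph (Fin M)),
          IsGeodetic X → IsGeodetic Y → (∀ u v, X.dist u v ≤ 7) → (∀ u v, Y.dist u v ≤ 7) →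
            (A (bits (adjMatrix X, adjMatrix Y)) = [true] ↔ Nonempty (X ≃g Y)),
      ∃ A : List Bool → List Bool, PolyTime A ∧
        ∀ x : List Bool, A x = [true] ↔ x ∈ lang GraphIso] := by
  refine ⟨?_, reduces, ?_⟩
  · obtain ⟨f, hf, h⟩ := main
    refine ⟨f, hf, fun x => ?_⟩
    obtain ⟨N, M, X', Y', h1, h2, h3, h4⟩ := h x
    exact ⟨N, M, X', Y', h1, h2.1, h3.1, h2.2, h3.2, h4⟩
  · tfae_have 1 → 2 := by
      rintro ⟨A, hA, h⟩
      exact ⟨A, hA, fun N M X Y hX hY _ _ => h N M X Y hX hY⟩
    tfae_have 2 → 3 := by
      rintro ⟨A, hA, h⟩
      obtain ⟨f, hf, hf'⟩ := main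
      refine ⟨fun x => A (f x), Pool.Agent.H642R2.TMSim.polyTime_comp hA hf, fun x => ?_⟩
      obtain ⟨N, M, X', Y', h1, h2, h3, h4⟩ := hf' x
      show A (f x) = [true] ↔ _
      rw [h4, ← h N M X' Y' h2.1 h3.1 h2.2 h3.2, h1]
    tfae_have 3 → 1 := by
      rintro ⟨A, hA, h⟩
      refine ⟨A, hA, fun N M X Y _ _ => ?_⟩
      rw [h, bits_mem]
    tfae_finish

end Pool.Agent.Results.MP_f934c9_lc.GIComplete
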